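import Pool.Agent.W89.PW.Defs
import Pool.Agent.H898R2.PalT2
import Pool.Agent.H944R3.PB_T1

/-! helper89's project PW (palindromes with weighted digits), tasks TaskG and TaskGsq: complete sums of products of
the positive definite majorant `Gf` -/

set_option autoImplicit false

namespace Pool.Agent.W880.PW

open Finset Pool.Agent.Helper112 Pool.Agent.W89.PW
open Pool.Agent.H39R3.PB (ph pts apts)
open Pool.Agent.H39R3.PS (EM)

/-- index set of the expansion of `Gf` -/
abbrev Om (s t : ℕ) : Type := (Fin s × Fin s) ⊕ (Fin t × Fin t)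

/-- frequency -/
def zt {s t : ℕ} : Om s t → ℤ
  | Sum.inl p => (p.1 : ℤ) - (p.2 : ℤ)
  | Sum.inr p => (p.1 : ℤ) - (p.2 : ℤ)

/-- weight -/
noncomputable def wt {s t : ℕ} : Om s t → ℝ
  | Sum.inl _ => 1 / (2 * (s : ℝ) ^ 2)
  | Sum.inr _ => 1 / (2 * (t : ℝ) ^ 2)

lemma wt_nonneg {s t : ℕ} (w : Om s t) : 0 ≤ wt w := by
  rcases w with p | p <;> (unfold wt; positivity)

lemma ph_sq (s : ℕ) (x : ℝ) :
    ((ph s x ^ 2 : ℝ) : ℂ) = ∑ p : Fin s × Fin s, ((1 / (s : ℝ) ^ 2 : ℝ) : ℂ) *
      ee ((((p.1 : ℕ) : ℝ) - ((p.2 : ℕ) : ℝ)) * x) := by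
  have h1 : ((‖∑ m ∈ range s, ee (m * x)‖ ^ 2 : ℝ) : ℂ) =
      (∑ m ∈ range s, ee (m * x)) * (starRingEnd ℂ) (∑ m ∈ range s, ee (m * x)) := by
    rw [Complex.mul_conj, Complex.normSq_eq_norm_sq]
  unfold ph
  rw [div_pow, Complex.ofReal_div, h1, ← mul_sum, Fintype.sum_prod_type, map_sum, sum_mul_sum]
  rw [div_eq_mul_inv, mul_comm]
  congr 1
  · push_cast
    rw [one_div]
  · rw [← Fin.sum_univ_eq_sum_range (fun i => ∑ j ∈ range s, ee (i * x) * (starRingEnd ℂ) (ee (j * x)))]
    apply sum_congr rfl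
    intro i _
    rw [← Fin.sum_univ_eq_sum_range (fun j => ee ((i : ℕ) * x) * (starRingEnd ℂ) (ee (j * x)))]
    apply sum_congr rfl
    intro j _
    rw [ls_conj_ee, ← ls_ee_add]
    congr 1
    ring

lemma Gf_eq (s t : ℕ) (x : ℝ) :
    ((Gf s t x : ℝ) : ℂ) = ∑ w : Om s t, ((wt w : ℝ) : ℂ) * ee ((zt w : ℝ) * x) := by
  unfold Gf
  rw [Fintype.sum_sum_type, Complex.ofReal_div, Complex.ofReal_add, ph_sq, ph_sq, add_div]
  congr 1
  · rw [sum_div]
    apply sum_congr rfl
    intro p _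
    unfold wt zt
    push_cast
    ring
  · rw [sum_div]
    apply sum_congr rfl
    intro p _
    unfold wt zt
    push_cast
    ring

lemma wt_sum {s t : ℕ} (hs : 1 ≤ s) (ht : 1 ≤ t) : ∑ w : Om s t, wt w = 1 := by
  have hs' : (s : ℝ) ≠ 0 := by positivity
  have ht' : (t : ℝ) ≠ 0 := by positivity
  rw [Fintype.sum_sum_type]
  simp only [wt, sum_const, card_univ, Fintype.card_prod, Fintype.card_fin, nsmul_eq_mul]
  push_cast
  field_simp
  norm_num

lemma wt_zero {s t : ℕ} (hs : 1 ≤ s) (ht : 1 ≤ t) :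
    ∑ w : Om s t, (if zt w = 0 then wt w else 0) = HH s t := by
  have hs' : (s : ℝ) ≠ 0 := by positivity
  have ht' : (t : ℝ) ≠ 0 := by positivity
  have key : ∀ r : ℕ, ∀ c : ℝ, ∑ p : Fin r × Fin r, (if p.1 = p.2 then c else 0) = r * c := by
    intro r c
    rw [Fintype.sum_prod_type]
    have : ∀ i : Fin r, ∑ j : Fin r, (if i = j then c else 0) = c := by
      intro i
      rw [sum_ite_eq, if_pos (mem_univ i)]
    simp only [this, sum_const, card_univ, Fintype.card_fin, nsmul_eq_mul]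
  have e1 : ∀ p : Fin s × Fin s, zt (Sum.inl p : Om s t) = 0 ↔ p.1 = p.2 := by
    intro p
    change ((p.1 : ℕ) : ℤ) - ((p.2 : ℕ) : ℤ) = 0 ↔ p.1 = p.2
    rw [Fin.ext_iff]
    omega
  have e2 : ∀ p : Fin t × Fin t, zt (Sum.inr p : Om s t) = 0 ↔ p.1 = p.2 := by
    intro p
    change ((p.1 : ℕ) : ℤ) - ((p.2 : ℕ) : ℤ) = 0 ↔ p.1 = p.2
    rw [Fin.ext_iff]
    omega
  have e3 : ∑ w : Om s t, (if zt w = 0 then wt w else 0) =
      ∑ p : Fin s × Fin s, (if p.1 = p.2 then 1 / (2 * (s : ℝ) ^ 2) else 0) +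
      ∑ p : Fin t × Fin t, (if p.1 = p.2 then 1 / (2 * (t : ℝ) ^ 2) else 0) := by
    rw [Fintype.sum_sum_type]
    congr 1
    · refine sum_congr rfl fun p _ => ?_
      by_cases h : p.1 = p.2
      · rw [if_pos ((e1 p).2 h), if_pos h]
        rfl
      · rw [if_neg (fun h' => h ((e1 p).1 h')), if_neg h]
    · refine sum_congr rfl fun p _ => ?_
      by_cases h : p.1 = p.2
      · rw [if_pos ((e2 p).2 h), if_pos h]
        rfl
      · rw [if_neg (fun h' => h ((e2 p).1 h')), if_neg h]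
  rw [e3, key, key]
  unfold HH
  field_simp

lemma zt_le {b s t : ℕ} (hs : 1 ≤ s) (ht : 1 ≤ t) (hst : s + t = b + 1) (w : Om s t) :
    |zt w| ≤ (b : ℤ) - 1 := by
  rcases w with p | p
  · change |((p.1 : ℕ) : ℤ) - ((p.2 : ℕ) : ℤ)| ≤ (b : ℤ) - 1
    have h1 := p.1.is_lt
    have h2 := p.2.is_lt
    rw [abs_le]
    omega
  · change |((p.1 : ℕ) : ℤ) - ((p.2 : ℕ) : ℤ)| ≤ (b : ℤ) - 1
    have h1 := p.1.is_lt
    have h2 := p.2.is_lt
    rw [abs_le]
    omega

/-- the integer attached to a choice of frequencies -/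
def NZ (b L : ℕ) {s t : ℕ} {B : Finset ℕ} (w : B → Om s t) : ℤ :=
  ∑ c : B, zt (w c) * (fr b L c : ℤ)

lemma ee_sum {ι : Type} (t : Finset ι) (f : ι → ℝ) : ee (∑ i ∈ t, f i) = ∏ i ∈ t, ee (f i) := by
  classical
  induction t using Finset.induction_on with
  | empty => simp [ls_ee_zero]
  | insert a t ha ih => rw [sum_insert ha, prod_insert ha, ls_ee_add, ih]

lemma prod_Gf (b L s t : ℕ) (B : Finset ℕ) (α : ℝ) :
    ((∏ c ∈ B, Gf s t (fr b L c * α) : ℝ) : ℂ) =
      ∑ w ∈ Fintype.piFinset (fun _ : B => (univ : Finset (Om s t))),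
        ((∏ c : B, wt (w c) : ℝ) : ℂ) * ee ((NZ b L w : ℝ) * α) := by
  rw [← prod_coe_sort B (fun c => Gf s t (fr b L c * α)), Complex.ofReal_prod]
  simp only [Gf_eq]
  rw [prod_univ_sum]
  apply sum_congr rfl
  intro w _
  rw [prod_mul_distrib, Complex.ofReal_prod, ← ee_sum]
  congr 2
  unfold NZ
  push_cast
  rw [sum_mul]
  apply sum_congr rfl
  intro c _
  ring

/-- exact formula for complete sums of products of the majorant -/
theorem G_core (b L s t M : ℕ) (hM : 0 < M) (B : Finset ℕ) :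
    ∑ a ∈ range M, ∏ c ∈ B, Gf s t (fr b L c * ((a : ℝ) / M)) =
      M * ∑ w ∈ Fintype.piFinset (fun _ : B => (univ : Finset (Om s t))),
        if (M : ℤ) ∣ NZ b L w then ∏ c : B, wt (w c) else 0 := by
  have h : ((∑ a ∈ range M, ∏ c ∈ B, Gf s t (fr b L c * ((a : ℝ) / M)) : ℝ) : ℂ) =
      ((M * ∑ w ∈ Fintype.piFinset (fun _ : B => (univ : Finset (Om s t))),
        (if (M : ℤ) ∣ NZ b L w then ∏ c : B, wt (w c) else 0) : ℝ) : ℂ) := by
    rw [Complex.ofReal_sum]
    simp only [prod_Gf]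
    rw [sum_comm, Complex.ofReal_mul, Complex.ofReal_sum, mul_sum]
    apply sum_congr rfl
    intro w _
    rw [← mul_sum, Pool.Agent.H898R2.PalT2.sum_ee M hM (NZ b L w)]
    split_ifs
    · rw [mul_comm, Complex.ofReal_natCast]
    · simp
  exact_mod_cast h

lemma NZ_ne {b L s t : ℕ} (hb : 2 ≤ b) (hs : 1 ≤ s) (ht : 1 ≤ t) (hst : s + t = b + 1)
    {B : Finset ℕ} (hB : B ⊆ range L) (w : B → Om s t) (h : NZ b L w = 0) (c : B) :
    zt (w c) = 0 := by
  set z : ℕ → ℤ := fun d => if hd : 1 ≤ d ∧ d - 1 ∈ B then zt (w ⟨d - 1, hd.2⟩) else 0 with hz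
  have h1 : ∑ d ∈ range (L + 1 + 1), z d * (Pool.Agent.H39R3.PB.fr b (L + 1) d : ℤ) = NZ b L w := by
    rw [sum_range_succ']
    have hz0 : z 0 = 0 := by simp [hz]
    rw [hz0, zero_mul, add_zero, sum_range_succ]
    have hzL : z (L + 1) = 0 := by
      simp only [hz]
      rw [dif_neg]
      rintro ⟨-, h2⟩
      have := mem_range.1 (hB h2)
      omega
    rw [hzL, zero_mul, add_zero]
    have h2 : NZ b L w = ∑ c ∈ B, (if h : c ∈ B then zt (w ⟨c, h⟩) else 0) * (fr b L c : ℤ) := by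
      rw [← sum_coe_sort B]
      unfold NZ
      apply sum_congr rfl
      intro c _
      rw [dif_pos c.2]
    rw [h2]
    rw [sum_subset hB (f := fun c => (if h : c ∈ B then zt (w ⟨c, h⟩) else 0) * (fr b L c : ℤ))]
    · apply sum_congr rfl
      intro c _
      rw [fr_eq]
      congr 1
      simp only [hz]
      by_cases hc : c ∈ B
      · rw [dif_pos ⟨by omega, by simpa using hc⟩, dif_pos hc]
        rfl
      · rw [dif_neg, dif_neg hc]
        rintro ⟨-, h2⟩
        exact hc (by simpa using h2)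
    · intro c _ hc
      rw [dif_neg hc, zero_mul]
  have h2 := Pool.Agent.H944R3.PB.digits_zero b hb (L + 1) z (fun d _ => by
    simp only [hz]
    split_ifs with hd
    · have := zt_le hs ht hst (w ⟨d - 1, hd.2⟩)
      omega
    · simp
      omega) (by rw [h1, h])
  have hcL := mem_range.1 (hB c.2)
  have h3 := h2 ((c : ℕ) + 1) (by omega)
  simp only [hz] at h3
  rw [dif_pos ⟨by omega, by simp⟩] at h3
  have h4 : (⟨(c : ℕ) + 1 - 1, by simp⟩ : B) = c := by
    apply Subtype.ext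
    simp
  rwa [h4] at h3

lemma sum_fr {b : ℕ} (hb : 2 ≤ b) (L : ℕ) : ∀ K : ℕ, K ≤ L →
    ∑ c ∈ range K, (b - 1) * fr b L c + b ^ (L + 2) + b ^ (L + 1 - K) = b ^ (L + K + 2) + b ^ (L + 1) := by
  obtain ⟨β, rfl⟩ : ∃ β, b = β + 1 := ⟨b - 1, by omega⟩
  intro K
  induction K with
  | zero => intro _; simp
  | succ K ih =>
    intro hK
    have ih' := ih (by omega)
    rw [sum_range_succ]
    have e1 : L + 1 - K = (L - K) + 1 := by omega
    have e2 : L + 1 - (K + 1) = L - K := by omega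
    have e3 : (β + 1) ^ (L - K + 1) = (β + 1) ^ (L - K) * (β + 1) := pow_succ _ _
    have e4 : (β + 1) ^ (L + (K + 1) + 2) = (β + 1) ^ (L + K + 2) * (β + 1) := by
      rw [show L + (K + 1) + 2 = (L + K + 2) + 1 by ring, pow_succ]
    rw [e1, e3] at ih'
    rw [e2, e4]
    rw [show β + 1 - 1 = β by omega] at ih' ⊢
    have e5 : fr (β + 1) L K = (β + 1) ^ (L + K + 2) + (β + 1) ^ (L - K) := rfl
    rw [e5]
    generalize ∑ c ∈ range K, β * fr (β + 1) L c = S at *
    generalize (β + 1) ^ (L - K) = u at *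
    generalize (β + 1) ^ (L + K + 2) = v at *
    generalize (β + 1) ^ (L + 2) = x at *
    generalize (β + 1) ^ (L + 1) = y at *
    ring_nf at ih' ⊢
    omega

lemma NZ_le {b L s t : ℕ} (hb : 2 ≤ b) (hs : 1 ≤ s) (ht : 1 ≤ t) (hst : s + t = b + 1)
    {B : Finset ℕ} (hB : B ⊆ range L) (w : B → Om s t) : (NZ b L w).natAbs ≤ b ^ (2 * L + 2) := by
  have h1 : |NZ b L w| ≤ ∑ c ∈ range L, ((b : ℤ) - 1) * (fr b L c : ℤ) := by
    unfold NZ
    calc |∑ c : B, zt (w c) * (fr b L c : ℤ)| ≤ ∑ c : B, |zt (w c) * (fr b L c : ℤ)| :=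
          abs_sum_le_sum_abs _ _
      _ ≤ ∑ c : B, ((b : ℤ) - 1) * (fr b L c : ℤ) := by
          apply sum_le_sum
          intro c _
          rw [abs_mul, Nat.abs_cast]
          exact mul_le_mul_of_nonneg_right (zt_le hs ht hst _) (by positivity)
      _ = ∑ c ∈ B, ((b : ℤ) - 1) * (fr b L c : ℤ) :=
          sum_coe_sort B (fun c => ((b : ℤ) - 1) * (fr b L c : ℤ))
      _ ≤ ∑ c ∈ range L, ((b : ℤ) - 1) * (fr b L c : ℤ) := by
          apply sum_le_sum_of_subset_of_nonneg hB
          intro c _ _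
          have : (0 : ℤ) ≤ (b : ℤ) - 1 := by omega
          positivity
  have h2 := sum_fr hb L L le_rfl
  have h3 : (∑ c ∈ range L, ((b : ℤ) - 1) * (fr b L c : ℤ)) =
      ((∑ c ∈ range L, (b - 1) * fr b L c : ℕ) : ℤ) := by
    push_cast
    apply sum_congr rfl
    intro c _
    rw [Nat.cast_sub (by omega)]
    push_cast
    ring
  rw [h3] at h1
  have h4 : b ^ (L + 1) ≤ b ^ (L + 2) := Nat.pow_le_pow_right (by omega) (by omega)
  have h5 : L + L + 2 = 2 * L + 2 := by ring
  rw [h5] at h2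
  have h6 : ((NZ b L w).natAbs : ℤ) ≤ ((∑ c ∈ range L, (b - 1) * fr b L c : ℕ) : ℤ) := by
    rw [Int.natCast_natAbs]; exact h1
  have h7 : (NZ b L w).natAbs ≤ ∑ c ∈ range L, (b - 1) * fr b L c := by exact_mod_cast h6
  omega

open Classical in
/-- total mass, split at the zero frequencies -/
lemma mass {s t : ℕ} (hs : 1 ≤ s) (ht : 1 ≤ t) (B : Finset ℕ) (u v : ℝ) (hv : 0 ≤ v) :
    ∑ w ∈ Fintype.piFinset (fun _ : B => (univ : Finset (Om s t))),
      (∏ c : B, wt (w c)) * (if ∀ c, zt (w c) = 0 then u else v) ≤ u * HH s t ^ B.card + v := by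
  have h0 : ∀ w : B → Om s t, 0 ≤ ∏ c : B, wt (w c) := fun s => prod_nonneg fun _ _ => wt_nonneg _
  have h1 : ∑ w ∈ Fintype.piFinset (fun _ : B => (univ : Finset (Om s t))), ∏ c : B, wt (w c) = 1 := by
    rw [← prod_univ_sum (fun _ : B => (univ : Finset (Om s t))) (fun _ w => wt w)]
    simp only [wt_sum hs ht, prod_const_one]
  have h2 : ∑ w ∈ Fintype.piFinset (fun _ : B => (univ : Finset (Om s t))),
      (∏ c : B, if zt (w c) = 0 then wt (w c) else 0) = HH s t ^ B.card := by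
    rw [← prod_univ_sum (fun _ : B => (univ : Finset (Om s t))) (fun _ w => if zt w = 0 then wt w else 0)]
    simp only [wt_zero hs ht, prod_const, card_univ, Fintype.card_coe]
  have h3 : ∀ w : B → Om s t, (∏ c : B, if zt (w c) = 0 then wt (w c) else 0) =
      if ∀ c, zt (w c) = 0 then ∏ c : B, wt (w c) else 0 := by
    intro w
    split_ifs with h
    · exact prod_congr rfl fun c _ => by rw [if_pos (h c)]
    · push Not at h
      obtain ⟨c, hc⟩ := h
      exact prod_eq_zero (mem_univ c) (by rw [if_neg hc])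
  simp only [h3] at h2
  calc ∑ w ∈ Fintype.piFinset (fun _ : B => (univ : Finset (Om s t))),
      (∏ c : B, wt (w c)) * (if ∀ c, zt (w c) = 0 then u else v)
      ≤ ∑ w ∈ Fintype.piFinset (fun _ : B => (univ : Finset (Om s t))),
        (u * (if ∀ c, zt (w c) = 0 then ∏ c : B, wt (w c) else 0) + v * ∏ c : B, wt (w c)) := by
        apply sum_le_sum
        intro w _
        have := h0 w
        split_ifs
        · nlinarith [mul_nonneg hv this]
        · linarith [mul_comm (∏ c : B, wt (w c)) v]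
    _ = u * HH s t ^ B.card + v := by
        rw [sum_add_distrib, ← mul_sum, ← mul_sum, h1, mul_one, h2]

lemma T_nonneg (b L : ℕ) (hb : 2 ≤ b) (T : ℝ)
    (hT : ∀ n : ℕ, 1 ≤ n → n ≤ b ^ (2 * L + 2) → (n.divisors.card : ℝ) ≤ T) : 0 ≤ T := by
  have := hT 1 le_rfl (Nat.one_le_pow _ _ (by omega))
  refine le_trans ?_ this
  positivity

/-- TaskG: divisor bound -/
theorem mainG : TaskG := by
  classical
  intro b s t hb hs ht hst L Q T B hB hT
  rcases Nat.eq_zero_or_pos Q with hQ | hQ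
  · subst hQ
    simp [apts]
  have hT0 := T_nonneg b L hb T hT
  unfold apts
  have h1 : ∑ q ∈ (Ico Q (2 * Q)).filter (fun q => q.Coprime (2 * b)),
      ∑ a ∈ range q, ∏ c ∈ B, Gf s t (fr b L c * ((a : ℝ) / q)) =
      ∑ w ∈ Fintype.piFinset (fun _ : B => (univ : Finset (Om s t))),
        (∏ c : B, wt (w c)) * ∑ q ∈ (Ico Q (2 * Q)).filter (fun q => q.Coprime (2 * b)),
          if (q : ℤ) ∣ NZ b L w then (q : ℝ) else 0 := by
    simp only [mul_sum]
    rw [sum_comm]
    apply sum_congr rfl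
    intro q hq
    rw [mem_filter, mem_Ico] at hq
    rw [G_core b L s t q (by omega) B, mul_sum]
    apply sum_congr rfl
    intro w _
    split_ifs <;> ring
  rw [h1]
  refine le_trans ?_ ((mass hs ht B (2 * Q * Q) (2 * Q * T) (by positivity)).trans (le_of_eq (by ring)))
  apply sum_le_sum
  intro w _
  apply mul_le_mul_of_nonneg_left _ (prod_nonneg fun _ _ => wt_nonneg _)
  split_ifs with h
  · calc ∑ q ∈ (Ico Q (2 * Q)).filter (fun q => q.Coprime (2 * b)),
        (if (q : ℤ) ∣ NZ b L w then (q : ℝ) else 0)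
        ≤ ∑ q ∈ (Ico Q (2 * Q)).filter (fun q => q.Coprime (2 * b)), (2 * Q : ℝ) := by
          apply sum_le_sum
          intro q hq
          rw [mem_filter, mem_Ico] at hq
          have : (q : ℝ) ≤ 2 * Q := by exact_mod_cast hq.1.2.le
          split_ifs
          · exact this
          · positivity
      _ ≤ ∑ q ∈ Ico Q (2 * Q), (2 * Q : ℝ) :=
          sum_le_sum_of_subset_of_nonneg (filter_subset _ _) (fun _ _ _ => by positivity)
      _ = 2 * Q * Q := by
          rw [sum_const, Nat.card_Ico, nsmul_eq_mul]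
          have : 2 * Q - Q = Q := by omega
          rw [this]
          ring
  · have hne : NZ b L w ≠ 0 := fun h' => h (NZ_ne hb hs ht hst hB w h')
    set n := (NZ b L w).natAbs with hn
    have hn1 : 1 ≤ n := by omega
    have hn2 : n ≤ b ^ (2 * L + 2) := NZ_le hb hs ht hst hB w
    have hdiv := hT n hn1 hn2
    calc ∑ q ∈ (Ico Q (2 * Q)).filter (fun q => q.Coprime (2 * b)),
        (if (q : ℤ) ∣ NZ b L w then (q : ℝ) else 0)
        ≤ ∑ q ∈ Ico Q (2 * Q), (if q ∣ n then (2 * Q : ℝ) else 0) := by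
          refine (sum_le_sum_of_subset_of_nonneg (filter_subset _ _)
            (fun _ _ _ => by positivity)).trans ?_
          apply sum_le_sum
          intro q hq
          rw [mem_Ico] at hq
          have h2 : (q : ℝ) ≤ 2 * Q := by exact_mod_cast hq.2.le
          have h3 : ((q : ℤ) ∣ NZ b L w) ↔ q ∣ n := by
            rw [hn, Int.natCast_dvd]
          simp only [h3]
          split_ifs
          · exact h2
          · exact le_rfl
      _ = ((Ico Q (2 * Q)).filter (fun q => q ∣ n)).card * (2 * Q : ℝ) := by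
          rw [← sum_filter, sum_const, nsmul_eq_mul]
      _ ≤ (n.divisors.card : ℝ) * (2 * Q : ℝ) := by
          apply mul_le_mul_of_nonneg_right _ (by positivity)
          have : (Ico Q (2 * Q)).filter (fun q => q ∣ n) ⊆ n.divisors := by
            intro q hq
            rw [mem_filter] at hq
            exact Nat.mem_divisors.2 ⟨hq.2, by omega⟩
          exact_mod_cast card_le_card this
      _ ≤ T * (2 * Q : ℝ) := mul_le_mul_of_nonneg_right hdiv (by positivity)
      _ = 2 * Q * T := by ring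

/-- TaskGsq: divisor bound for square moduli -/
theorem mainGsq : TaskGsq := by
  classical
  intro b s t hb hs ht hst L P T B hB hP hT
  have hT0 := T_nonneg b L hb T hT
  unfold EM
  have h1 : ∑ m ∈ (Ico P (2 * P)).filter (fun m => m.Coprime (2 * b)),
      (∑ a ∈ range (m ^ 2), ∏ c ∈ B, Gf s t (fr b L c * ((a : ℝ) / ((m ^ 2 : ℕ) : ℝ)))) / ((m ^ 2 : ℕ) : ℝ) =
      ∑ w ∈ Fintype.piFinset (fun _ : B => (univ : Finset (Om s t))),
        (∏ c : B, wt (w c)) * ∑ m ∈ (Ico P (2 * P)).filter (fun m => m.Coprime (2 * b)),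
          if ((m ^ 2 : ℕ) : ℤ) ∣ NZ b L w then (1 : ℝ) else 0 := by
    simp only [mul_sum]
    rw [sum_comm]
    apply sum_congr rfl
    intro m hm
    rw [mem_filter, mem_Ico] at hm
    have hm1 : 0 < m ^ 2 := by
      have : 0 < m := by omega
      positivity
    have hm2 : (((m ^ 2 : ℕ) : ℝ)) ≠ 0 := by exact_mod_cast hm1.ne'
    rw [G_core b L s t (m ^ 2) hm1 B, mul_div_cancel_left₀ _ hm2]
    apply sum_congr rfl
    intro w _
    split_ifs <;> ring
  refine (le_of_eq h1).trans ?_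
  refine le_trans ?_ (mass hs ht B P T hT0)
  apply sum_le_sum
  intro w _
  apply mul_le_mul_of_nonneg_left _ (prod_nonneg fun _ _ => wt_nonneg _)
  split_ifs with h
  · calc ∑ m ∈ (Ico P (2 * P)).filter (fun m => m.Coprime (2 * b)),
        (if ((m ^ 2 : ℕ) : ℤ) ∣ NZ b L w then (1 : ℝ) else 0)
        ≤ ∑ m ∈ (Ico P (2 * P)).filter (fun m => m.Coprime (2 * b)), (1 : ℝ) := by
          apply sum_le_sum
          intro m _
          split_ifs <;> norm_num
      _ ≤ ∑ m ∈ Ico P (2 * P), (1 : ℝ) :=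
          sum_le_sum_of_subset_of_nonneg (filter_subset _ _) (fun _ _ _ => by positivity)
      _ = P := by
          rw [sum_const, Nat.card_Ico, nsmul_eq_mul]
          have : 2 * P - P = P := by omega
          rw [this]
          ring
  · have hne : NZ b L w ≠ 0 := fun h' => h (NZ_ne hb hs ht hst hB w h')
    set n := (NZ b L w).natAbs with hn
    have hn1 : 1 ≤ n := by omega
    have hn2 : n ≤ b ^ (2 * L + 2) := NZ_le hb hs ht hst hB w
    have hdiv := hT n hn1 hn2
    calc ∑ m ∈ (Ico P (2 * P)).filter (fun m => m.Coprime (2 * b)),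
        (if ((m ^ 2 : ℕ) : ℤ) ∣ NZ b L w then (1 : ℝ) else 0)
        ≤ ∑ m ∈ Ico P (2 * P), (if m ∣ n then (1 : ℝ) else 0) := by
          refine (sum_le_sum_of_subset_of_nonneg (filter_subset _ _)
            (fun _ _ _ => by positivity)).trans ?_
          apply sum_le_sum
          intro m _
          have h3 : (((m ^ 2 : ℕ) : ℤ) ∣ NZ b L w) → m ∣ n := by
            intro h4
            rw [Int.natCast_dvd] at h4
            exact (dvd_pow_self m two_ne_zero).trans h4
          split_ifs with h5 h6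
          · exact le_rfl
          · exact absurd (h3 h5) h6
          · norm_num
          · exact le_rfl
      _ = ((Ico P (2 * P)).filter (fun m => m ∣ n)).card := by
          rw [← sum_filter, sum_const, nsmul_eq_mul, mul_one]
      _ ≤ (n.divisors.card : ℝ) := by
          have : (Ico P (2 * P)).filter (fun m => m ∣ n) ⊆ n.divisors := by
            intro m hm
            rw [mem_filter] at hm
            exact Nat.mem_divisors.2 ⟨hm.2, by omega⟩
          exact_mod_cast card_le_card this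
      _ ≤ T := hdiv

end Pool.Agent.W880.PW
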