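import Pool.Agent.W982.TA.Grid

/-!
# Min-max area triangulations: signals of tiles
-/

set_option autoImplicit false

namespace Pool.Agent.W982.TA

open Pool.Agent.NPC

namespace J2aux

/-- the boundary modes of the claims -/
theorem bds : ((List.range 8).all fun t => (tile t).claims.all fun c =>
    Nat.beq c.bd 0 || (Nat.beq t 5 && Nat.beq c.bd 1) || (Nat.beq t 7 && Nat.beq c.bd 2)) = true := by
  rfl

theorem bd_of (t : ℕ) (ht : t < 8) (c : Claim) (hc : c ∈ (tile t).claims) :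
    c.bd = 0 ∨ (t = 5 ∧ c.bd = 1) ∨ (t = 7 ∧ c.bd = 2) := by
  have h1 := List.all_eq_true.mp bds t (List.mem_range.mpr ht)
  have h2 := List.all_eq_true.mp h1 c hc
  simp only [Bool.or_eq_true, Bool.and_eq_true, Nat.beq_eq] at h2
  rcases h2 with (h2 | h2) | h2
  · exact Or.inl h2
  · exact Or.inr (Or.inl h2)
  · exact Or.inr (Or.inr h2)

theorem ty_lt (φ : List Cl) (i j : ℕ) : ty φ i j < 8 := by
  unfold ty
  split_ifs <;> norm_num

theorem ty_five (φ : List Cl) (i j : ℕ) (h : ty φ i j = 5) : i = 0 ∧ j = 0 := by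
  unfold ty at h
  split_ifs at h <;> simp_all

theorem ty_seven (φ : List Cl) (i j : ℕ) (h : ty φ i j = 7) : i = nR φ - 1 ∧ j = 0 := by
  unfold ty at h
  split_ifs at h <;> simp_all

theorem miss_lt (t : ℕ) (P : List ℕ) (h : patOK t P = true) (x y : ℕ)
    (hm : missP P ((x : ℤ), (y : ℤ)) = true) : x < 64 ∧ y < 62 := by
  unfold patOK at h
  simp only [Bool.and_eq_true, decide_eq_true_eq] at h
  obtain ⟨⟨⟨h1, h2⟩, _⟩, _⟩ := h
  unfold missP at hm
  simp only [Bool.and_eq_true, Int.toNat_natCast] at hm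
  obtain ⟨_, hm⟩ := hm
  have hy : y < P.length := by
    by_contra hy
    rw [List.getD_eq_default _ _ (by omega)] at hm
    simp at hm
  refine ⟨?_, by omega⟩
  by_contra hx
  rw [List.getD_eq_getElem _ _ hy] at hm
  have h3 := List.all_eq_true.mp h2 _ (List.getElem_mem hy)
  rw [decide_eq_true_eq] at h3
  have h4 : P[y] < 2 ^ x := lt_of_lt_of_le h3 (Nat.pow_le_pow_right (by norm_num) (by omega))
  rw [Nat.testBit_lt_two_pow h4] at hm
  exact Bool.false_ne_true hm

end J2aux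

open J2aux in
theorem j2 (h13 : TaskS13) (h1 : TaskI1) : TaskJ2 := by
  intro hP hT φ e hφ hM i hi j hj
  have ht := ty_lt φ i j
  have hpat := hP _ ht
  refine h13 (64 * nC φ + 7) (62 * nR φ - 1) (Mset φ) e (64 * (j : ℤ), 62 * (i : ℤ))
    (tile (ty φ i j)) hM ?_ ?_ (hT _ ht)
  · intro x y hxy
    obtain ⟨hx, hy⟩ := miss_lt _ _ hpat x y hxy
    exact (h1 hP φ _).mpr ⟨i, hi, j, hj, x, hx, y, hy, hxy, rfl⟩
  · intro c hc
    rcases bd_of _ ht c hc with h | ⟨h5, h⟩ | ⟨h7, h⟩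
    · exact ⟨fun hh => by omega, fun hh => by omega⟩
    · obtain ⟨hi0, hj0⟩ := ty_five φ i j h5
      refine ⟨fun _ => ?_, fun hh => by omega⟩
      rw [hi0, hj0]
      rfl
    · obtain ⟨hi0, hj0⟩ := ty_seven φ i j h7
      refine ⟨fun hh => by omega, fun _ => ?_⟩
      subst hj0
      refine ⟨rfl, ?_⟩
      have hn : 2 ≤ nR φ := by
        unfold nR
        omega
      have hi1 : (i : ℤ) = (nR φ : ℤ) - 1 := by omega
      show 62 * (i : ℤ) + 61 = 62 * (nR φ : ℤ) - 1
      rw [hi1]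
      ring

end Pool.Agent.W982.TA
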